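import Mathlib

open Set Cardinal

namespace Pool.Agent.Results.MP_c086f7_lc.Undetermined

universe u

/-- A move `(b, T)`: the bit `b` says which of the two pieces of the last splitting is picked
(`true`: the first piece, `false`: the second piece; at move `0` the bit plays no role), and the
set `T` splits the new current set `X` into the two pieces `X ∩ T` and `X \ T`.  Every partition
of `X` into two parts is of this form. -/
abbrev Move (E : Type u) : Type u := Bool × Set E

/-- The current set `X n` of a play `p`: `X 0 = E`, and `X (n+1)` is the piece of the splitting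
of `X n` made at move `n` which is picked at move `n+1`. -/
def X {E : Type u} (p : ℕ → Move E) : ℕ → Set E
  | 0 => Set.univ
  | n + 1 => if (p (n + 1)).1 = true then X p n ∩ (p n).2 else X p n \ (p n).2

/-- The history of the play `p` before move `n`, most recent move first. -/
def hist {E : Type u} (p : ℕ → Move E) : ℕ → List (Move E)
  | 0 => []
  | n + 1 => p n :: hist p n

/-- Player A, who makes the moves with even number, has a winning strategy in `G(E)`. -/
def AWins (E : Type u) : Prop :=
  ∃ σ : List (Move E) → Move E, ∀ p : ℕ → Move E,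
    (∀ n, Even n → p n = σ (hist p n)) → ⋂ n, X p (n + 1) = ∅

/-- Player B, who makes the moves with odd number, has a winning strategy in `G(E)`. -/
def BWins (E : Type u) : Prop :=
  ∃ τ : List (Move E) → Move E, ∀ p : ℕ → Move E,
    (∀ n, Odd n → p n = τ (hist p n)) → (⋂ n, X p (n + 1)).Nonempty

/-! ### Player A has no winning strategy -/

section A

variable {E : Type u} (σ : List (Move E) → Move E) (dig : ℕ → Set E)

/-- positions after a move of A, when B splits by `dig n` only -/
def P : List (Bool × ℕ) → List (Move E)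
  | [] => [σ []]
  | c :: l => σ ((c.1, dig c.2) :: P l) :: (c.1, dig c.2) :: P l

/-- the last move of A -/
def lastA : List (Bool × ℕ) → Move E
  | [] => σ []
  | c :: l => σ ((c.1, dig c.2) :: P σ dig l)

/-- current set at `P l` -/
def Y : List (Bool × ℕ) → Set E
  | [] => Set.univ
  | c :: l =>
    let Z := if c.1 = true then Y l ∩ (lastA σ dig l).2 else Y l \ (lastA σ dig l).2
    if (lastA σ dig (c :: l)).1 = true then Z ∩ dig c.2 else Z \ dig c.2

end A

theorem not_AWins (E : Type u) [Uncountable E] : ¬ AWins E := by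
  classical
  rintro ⟨σ, hσ⟩
  -- an uncountable set `W` with an injection into the Cantor space
  obtain ⟨W, hW⟩ : ∃ W : Set E, #W = ℵ₁ := by
    apply Cardinal.le_mk_iff_exists_set.1
    rw [← Cardinal.succ_aleph0]
    exact Order.succ_le_of_lt (Cardinal.aleph0_lt_mk)
  have hWle : #W ≤ #(ULift.{u} (ℕ → Bool)) := by
    rw [hW]
    have h1 : #(ULift.{u} (ℕ → Bool)) = 𝔠 := by simp
    rw [h1]
    exact Cardinal.aleph_one_le_continuum
  obtain ⟨ι⟩ := hWle
  have hWunc : ¬ W.Countable := by
    intro h
    have := Cardinal.le_aleph0_iff_set_countable.2 h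
    rw [hW] at this
    exact absurd this (not_le.2 Cardinal.aleph0_lt_aleph_one)
  let dig : ℕ → Set E := fun n => {x | ∃ h : x ∈ W, (ι ⟨x, h⟩).down n = true}
  -- points that are excluded at some position
  let Ex : List (Bool × ℕ) × Bool → Set E := fun q =>
    {x | x ∈ W ∧ x ∈ (if q.2 = true then Y σ dig q.1 ∩ (lastA σ dig q.1).2
      else Y σ dig q.1 \ (lastA σ dig q.1).2) ∧ ∀ n, x ∉ Y σ dig ((q.2, n) :: q.1)}
  have hEx : ∀ q, (Ex q).Subsingleton := by
    rintro ⟨l, b⟩ x ⟨hxW, hxZ, hx⟩ y ⟨hyW, hyZ, hy⟩
    have key : (⟨x, hxW⟩ : W) = ⟨y, hyW⟩ := by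
      apply ι.injective
      apply ULift.ext
      funext n
      have h1 := hx n
      have h2 := hy n
      simp only [Y] at h1 h2
      simp only at hxZ hyZ
      have e1 : x ∈ dig n ↔ (ι ⟨x, hxW⟩).down n = true := by
        simp only [dig, Set.mem_ofPred_eq]
        exact ⟨fun ⟨_, h⟩ => h, fun h => ⟨hxW, h⟩⟩
      have e2 : y ∈ dig n ↔ (ι ⟨y, hyW⟩).down n = true := by
        simp only [dig, Set.mem_ofPred_eq]
        exact ⟨fun ⟨_, h⟩ => h, fun h => ⟨hyW, h⟩⟩
      by_cases hc : (lastA σ dig ((b, n) :: l)).1 = true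
      · rw [if_pos hc] at h1 h2
        have h3 : x ∉ dig n := fun h => h1 ⟨hxZ, h⟩
        have h4 : y ∉ dig n := fun h => h2 ⟨hyZ, h⟩
        rw [e1, Bool.not_eq_true] at h3
        rw [e2, Bool.not_eq_true] at h4
        rw [h3, h4]
      · rw [if_neg hc] at h1 h2
        have h3 : x ∈ dig n := by
          by_contra h
          exact h1 ⟨hxZ, h⟩
        have h4 : y ∈ dig n := by
          by_contra h
          exact h2 ⟨hyZ, h⟩
        rw [e1] at h3
        rw [e2] at h4
        rw [h3, h4]
    exact congrArg Subtype.val key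
  have hcount : (⋃ q, Ex q).Countable :=
    Set.countable_iUnion (fun q => (hEx q).countable)
  obtain ⟨ξ, hξW, hξ⟩ : ∃ ξ ∈ W, ξ ∉ ⋃ q, Ex q := by
    by_contra hcon
    push Not at hcon
    exact hWunc (hcount.mono hcon)
  have step : ∀ l, ξ ∈ Y σ dig l → ∃ c, ξ ∈ Y σ dig (c :: l) := by
    intro l hl
    have h0 : ξ ∉ Ex (l, decide (ξ ∈ (lastA σ dig l).2)) := fun h =>
      hξ (Set.mem_iUnion.2 ⟨_, h⟩)
    by_contra hcon
    push Not at hcon
    apply h0
    refine ⟨hξW, ?_, fun n => hcon _⟩
    by_cases h : ξ ∈ (lastA σ dig l).2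
    · simp only [h, decide_true, if_true]
      exact ⟨hl, h⟩
    · simp only [h, decide_false, Bool.false_eq_true, if_false]
      exact ⟨hl, h⟩
  choose! nxt hnxt using step
  let L : ℕ → List (Bool × ℕ) := fun k => Nat.rec [] (fun _ l => nxt l :: l) k
  have hL : ∀ k, ξ ∈ Y σ dig (L k) := by
    intro k
    induction k with
    | zero => exact Set.mem_univ ξ
    | succ k ih => exact hnxt _ ih
  have hLs : ∀ k, L (k + 1) = nxt (L k) :: L k := fun k => rfl
  -- the play
  let p : ℕ → Move E := fun n =>
    if Even n then lastA σ dig (L (n / 2)) else ((nxt (L (n / 2))).1, dig (nxt (L (n / 2))).2)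
  have hp0 : ∀ k, p (2 * k) = lastA σ dig (L k) := by
    intro k
    have : Even (2 * k) := even_two_mul k
    simp only [p, if_pos this]
    rw [Nat.mul_div_cancel_left k (by norm_num)]
  have hp1 : ∀ k, p (2 * k + 1) = ((nxt (L k)).1, dig (nxt (L k)).2) := by
    intro k
    have : ¬ Even (2 * k + 1) := by
      rw [Nat.not_even_iff_odd]; exact odd_two_mul_add_one k
    simp only [p, if_neg this]
    have : (2 * k + 1) / 2 = k := by omega
    rw [this]
  have hh : ∀ k, hist p (2 * k + 1) = P σ dig (L k) := by
    intro k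
    induction k with
    | zero =>
      show p 0 :: [] = [σ []]
      rw [show p 0 = lastA σ dig (L 0) from hp0 0]
      rfl
    | succ k ih =>
      show p (2 * (k + 1)) :: p (2 * k + 1) :: hist p (2 * k + 1) = _
      rw [hp0, hp1, ih, hLs]
      rfl
  have hcons : ∀ n, Even n → p n = σ (hist p n) := by
    intro n hn
    obtain ⟨k, rfl⟩ := hn
    have h2 : k + k = 2 * k := by ring
    rw [h2]
    cases k with
    | zero => rw [hp0]; rfl
    | succ k =>
      rw [hp0]
      show _ = σ (p (2 * k + 1) :: hist p (2 * k + 1))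
      rw [hh, hp1, hLs]
      rfl
  have hX : ∀ k, X p (2 * k) = Y σ dig (L k) := by
    intro k
    induction k with
    | zero => rfl
    | succ k ih =>
      show (if (p (2 * k + 1 + 1)).1 = true then
        (if (p (2 * k + 1)).1 = true then X p (2 * k) ∩ (p (2 * k)).2
          else X p (2 * k) \ (p (2 * k)).2) ∩ (p (2 * k + 1)).2 else
        (if (p (2 * k + 1)).1 = true then X p (2 * k) ∩ (p (2 * k)).2
          else X p (2 * k) \ (p (2 * k)).2) \ (p (2 * k + 1)).2) = _
      have h3 : p (2 * k + 1 + 1) = lastA σ dig (L (k + 1)) := hp0 (k + 1)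
      rw [h3, hp1, hp0, ih, hLs]
      rfl
  have hsub : ∀ n, X p (n + 1) ⊆ X p n := by
    intro n
    show (if (p (n + 1)).1 = true then X p n ∩ (p n).2 else X p n \ (p n).2) ⊆ _
    split
    · exact Set.inter_subset_left
    · exact Set.sdiff_subset
  have hmem : ∀ n, ξ ∈ X p (n + 1) := by
    intro n
    have h1 : ξ ∈ X p (2 * (n + 1)) := by
      rw [hX]; exact hL (n + 1)
    have h2 : X p (2 * (n + 1)) ⊆ X p (n + 1) := by
      have hanti : Antitone (X p) := antitone_nat_of_succ_le hsub
      exact hanti (by omega)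
    exact h2 h1
  have := hσ p hcons
  have h4 : ξ ∈ ⋂ n, X p (n + 1) := Set.mem_iInter.2 hmem
  rw [this] at h4
  exact h4


/-! ### Player B has no winning strategy if `|E| ≤ 2^ℵ₀` -/

/-- injective choice functions -/
theorem exists_injective_choice {I α : Type} [Inhabited α] (A : I → Set α)
    (hA : ∀ i, #I ≤ #(A i)) : ∃ f : I → α, Function.Injective f ∧ ∀ i, f i ∈ A i := by
  classical
  obtain ⟨r, wo, hr⟩ := Cardinal.exists_ord_eq I
  have hwf : WellFounded r := wo.wf
  let f : I → α := hwf.fix (fun i ih =>
    if h : ∃ x ∈ A i, ∀ (j : I) (hj : r j i), x ≠ ih j hj then h.choose else default)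
  have hf : ∀ i, f i = if h : ∃ x ∈ A i, ∀ (j : I) (_ : r j i), x ≠ f j then h.choose
      else default := by
    intro i
    exact hwf.fix_eq _ i
  have hex : ∀ i, ∃ x ∈ A i, ∀ (j : I) (_ : r j i), x ≠ f j := by
    intro i
    by_contra hcon
    push Not at hcon
    have h1 : A i ⊆ f '' {j | r j i} := by
      intro x hx
      obtain ⟨j, hj, hxj⟩ := hcon x hx
      exact ⟨j, hj, hxj.symm⟩
    have h2 : #(A i) ≤ #{j | r j i} := (Cardinal.mk_le_mk_of_subset h1).trans Cardinal.mk_image_le
    have h3 : #{j | r j i} < #I := by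
      have := Cardinal.card_typein_lt (r := r) i hr
      rw [Ordinal.card_typein] at this
      exact this
    exact absurd (hA i) (not_le.2 (h2.trans_lt h3))
  have hspec : ∀ i, f i ∈ A i ∧ ∀ (j : I) (_ : r j i), f i ≠ f j := by
    intro i
    rw [hf i, dif_pos (hex i)]
    exact (hex i).choose_spec
  refine ⟨f, ?_, fun i => (hspec i).1⟩
  intro i j hij
  rcases trichotomous_of r i j with h | h | h
  · exact absurd hij.symm ((hspec j).2 i h)
  · exact h
  · exact absurd hij ((hspec i).2 j h)

/-- initial segment (most recent bit first) -/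
def seg (b : ℕ → Bool) : ℕ → List Bool
  | 0 => []
  | n + 1 => b n :: seg b n

/-- map of the Cantor space induced by `γ` -/
def gmap (γ : List Bool → Bool) (b : ℕ → Bool) : ℕ → Bool := fun n => γ (seg b n)

theorem exists_bernstein : ∃ B : Set (ℕ → Bool), #B = 𝔠 ∧
    ∀ γ : List Bool → Bool, Function.Injective (gmap γ) → ∃ b, gmap γ b ∉ B := by
  classical
  let I : Type := (List Bool → Bool) × Bool
  have hL : #(List Bool → Bool) = 𝔠 := by
    simp
  have hI : #I = 𝔠 := by
    simp only [I, Cardinal.mk_prod, Cardinal.lift_id, hL, Cardinal.mk_fintype, Fintype.card_bool]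
    exact_mod_cast Cardinal.continuum_mul_nat (n := 2) (by norm_num)
  let A : I → Set (ℕ → Bool) := fun i =>
    if Function.Injective (gmap i.1) then Set.range (gmap i.1) else Set.univ
  have hA : ∀ i, #I ≤ #(A i) := by
    intro i
    rw [hI]
    by_cases h : Function.Injective (gmap i.1)
    · simp only [A, if_pos h]
      rw [Cardinal.mk_range_eq _ h]
      simp
    · simp only [A, if_neg h]
      simp
  obtain ⟨f, hfinj, hf⟩ := exists_injective_choice A hA
  refine ⟨Set.range (fun γ => f (γ, true)), ?_, ?_⟩
  · rw [Cardinal.mk_range_eq]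
    · exact hL
    · intro γ γ' h
      have := hfinj h
      exact congrArg Prod.fst this
  · intro γ hγ
    have h1 := hf (γ, false)
    simp only [A, if_pos hγ] at h1
    obtain ⟨b, hb⟩ := h1
    refine ⟨b, ?_⟩
    rw [hb]
    rintro ⟨γ', h'⟩
    have := hfinj h'
    exact Bool.noConfusion (congrArg Prod.snd this : true = false)

section B

variable {E : Type u} (τ : List (Move E) → Move E) (D : ℕ → Set E)

/-- positions after a move of B, when A splits by `D n` at the `n`-th move of A -/
def Q : List Bool → List (Move E)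
  | [] => [τ [(true, D 0)], (true, D 0)]
  | c :: l => τ ((c, D (l.length + 1)) :: Q l) :: (c, D (l.length + 1)) :: Q l

/-- the last move of B -/
def lastB : List Bool → Move E
  | [] => τ [(true, D 0)]
  | c :: l => τ ((c, D (l.length + 1)) :: Q τ D l)

end B

lemma length_seg (b : ℕ → Bool) (n : ℕ) : (seg b n).length = n := by
  induction n with
  | zero => rfl
  | succ n ih => simp [seg, ih]

theorem not_BWins (E : Type u) (hE : #E ≤ 𝔠) : ¬ BWins E := by
  classical
  rintro ⟨τ, hτ⟩
  obtain ⟨B, hB, hBγ⟩ := exists_bernstein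
  have hle : #E ≤ #(ULift.{u} B) := by
    rw [Cardinal.mk_uLift, hB, Cardinal.lift_continuum]
    exact hE
  obtain ⟨h⟩ := hle
  let g : E → ℕ → Bool := fun x => (h x).down.1
  have hginj : Function.Injective g := by
    intro x y hxy
    apply h.injective
    apply ULift.ext
    exact Subtype.ext hxy
  have hgB : ∀ x, g x ∈ B := fun x => (h x).down.2
  let D : ℕ → Set E := fun n => {x | g x n = true}
  let γ : List Bool → Bool := fun l => (lastB τ D l).1
  -- plays
  let play : (ℕ → Bool) → ℕ → Move E := fun b n =>
    if Even n then (if n = 0 then true else b (n / 2 - 1), D (n / 2)) else lastB τ D (seg b (n / 2))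
  have hp0 : ∀ b k, play b (2 * (k + 1)) = (b k, D (k + 1)) := by
    intro b k
    have h1 : Even (2 * (k + 1)) := even_two_mul _
    have h2 : 2 * (k + 1) / 2 = k + 1 := by omega
    have h3 : ¬ (2 * (k + 1) = 0) := by omega
    simp only [play, if_pos h1, h2, if_neg h3, Nat.add_sub_cancel]
  have hp00 : ∀ b, play b 0 = (true, D 0) := by
    intro b
    simp [play]
  have hp1 : ∀ b k, play b (2 * k + 1) = lastB τ D (seg b k) := by
    intro b k
    have h1 : ¬ Even (2 * k + 1) := by
      rw [Nat.not_even_iff_odd]; exact odd_two_mul_add_one k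
    have h2 : (2 * k + 1) / 2 = k := by omega
    simp only [play, if_neg h1, h2]
  have hh : ∀ b k, hist (play b) (2 * (k + 1)) = Q τ D (seg b k) := by
    intro b k
    induction k with
    | zero =>
      show play b 1 :: play b 0 :: [] = _
      rw [show play b 1 = lastB τ D (seg b 0) from hp1 b 0, hp00]
      rfl
    | succ k ih =>
      show play b (2 * (k + 1) + 1) :: play b (2 * (k + 1)) :: hist (play b) (2 * (k + 1)) = _
      rw [hp1, hp0, ih]
      show _ = τ ((b k, D ((seg b k).length + 1)) :: Q τ D (seg b k)) ::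
        (b k, D ((seg b k).length + 1)) :: Q τ D (seg b k)
      rw [length_seg]
      show lastB τ D (b k :: seg b k) :: _ = _
      show τ ((b k, D ((seg b k).length + 1)) :: Q τ D (seg b k)) :: _ = _
      rw [length_seg]
  have hcons : ∀ b n, Odd n → play b n = τ (hist (play b) n) := by
    intro b n hn
    obtain ⟨k, rfl⟩ := hn
    rw [hp1]
    cases k with
    | zero =>
      show τ [(true, D 0)] = τ [play b 0]
      rw [hp00]
    | succ k =>
      show lastB τ D (b k :: seg b k) = τ (play b (2 * (k + 1)) :: hist (play b) (2 * (k + 1)))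
      rw [hp0, hh]
      show τ ((b k, D ((seg b k).length + 1)) :: Q τ D (seg b k)) = _
      rw [length_seg]
  have hwin : ∀ b, ∃ x, ∀ n, x ∈ X (play b) (n + 1) := by
    intro b
    obtain ⟨x, hx⟩ := hτ (play b) (hcons b)
    exact ⟨x, Set.mem_iInter.1 hx⟩
  choose x hx using hwin
  -- B's picks give the code of `x b`
  have hcode : ∀ b, g (x b) = gmap γ b := by
    intro b
    funext k
    have h1 : x b ∈ X (play b) (2 * k + 1) := hx b (2 * k)
    have h2 : X (play b) (2 * k + 1) = if (play b (2 * k + 1)).1 = true then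
      X (play b) (2 * k) ∩ (play b (2 * k)).2 else X (play b) (2 * k) \ (play b (2 * k)).2 := rfl
    have h3 : (play b (2 * k)).2 = D k := by
      cases k with
      | zero => rw [show play b (2 * 0) = (true, D 0) from hp00 b]
      | succ k => rw [hp0]
    rw [h2, hp1, h3] at h1
    show g (x b) k = (lastB τ D (seg b k)).1
    by_cases hc : (lastB τ D (seg b k)).1 = true
    · rw [if_pos hc] at h1
      rw [hc]
      exact h1.2
    · rw [if_neg hc] at h1
      have h4 : ¬ (g (x b) k = true) := h1.2
      rw [Bool.not_eq_true] at hc h4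
      rw [hc, h4]
  have hinj : Function.Injective x := by
    intro b b' hbb
    by_contra hne
    have hex : ∃ n, b n ≠ b' n := by
      by_contra hcon
      push Not at hcon
      exact hne (funext hcon)
    let k := Nat.find hex
    have hk : b k ≠ b' k := Nat.find_spec hex
    have hlt : ∀ j < k, b j = b' j := fun j hj => by
      have := Nat.find_min hex hj
      push Not at this
      exact this
    have hseg : seg b k = seg b' k := by
      have : ∀ n ≤ k, seg b n = seg b' n := by
        intro n
        induction n with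
        | zero => intro _; rfl
        | succ n ih =>
          intro hn
          show b n :: seg b n = b' n :: seg b' n
          rw [ih (by omega), hlt n (by omega)]
      exact this k le_rfl
    have h1 : x b ∈ X (play b) (2 * k + 1 + 1) := hx b (2 * k + 1)
    have h2 : x b' ∈ X (play b') (2 * k + 1 + 1) := hx b' (2 * k + 1)
    have e1 : X (play b) (2 * k + 1 + 1) = if (play b (2 * (k + 1))).1 = true then
      X (play b) (2 * k + 1) ∩ (play b (2 * k + 1)).2 else
      X (play b) (2 * k + 1) \ (play b (2 * k + 1)).2 := rfl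
    have e2 : X (play b') (2 * k + 1 + 1) = if (play b' (2 * (k + 1))).1 = true then
      X (play b') (2 * k + 1) ∩ (play b' (2 * k + 1)).2 else
      X (play b') (2 * k + 1) \ (play b' (2 * k + 1)).2 := rfl
    rw [e1, hp0, hp1] at h1
    rw [e2, hp0, hp1, ← hseg, ← hbb] at h2
    simp only at h1 h2
    cases hb1 : b k with
    | true =>
      have hb2 : b' k = false := by
        rw [hb1] at hk
        simpa using hk.symm
      rw [hb1, if_pos rfl] at h1
      rw [hb2, if_neg (by simp)] at h2
      exact h2.2 h1.2
    | false =>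
      have hb2 : b' k = true := by
        rw [hb1] at hk
        simpa using hk.symm
      rw [hb1, if_neg (by simp)] at h1
      rw [hb2, if_pos rfl] at h2
      exact h1.2 h2.2
  have hγinj : Function.Injective (gmap γ) := by
    intro b b' hbb
    apply hinj
    apply hginj
    rw [hcode, hcode, hbb]
  obtain ⟨b, hb⟩ := hBγ γ hγinj
  apply hb
  rw [← hcode]
  exact hgB _

/-! ### A sufficient condition for B to win (it can only hold if `|E| > 2^ℵ₀`) -/

/-- `F` is a nonempty family of subsets of `E` such that for every splitting of a member `D`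
of `F` one of the two pieces contains a member of `F`, every member of `F` contains two disjoint
members of `F`, and all decreasing `ω`-sequences of members of `F` have nonempty intersection. -/
def IsSplitFamily {E : Type u} (F : Set (Set E)) : Prop :=
  F.Nonempty ∧
    (∀ D ∈ F, ∀ T : Set E, ∃ D' ∈ F, D' ⊆ D ∩ T ∨ D' ⊆ D \ T) ∧
    (∀ D ∈ F, ∃ D₀ ∈ F, ∃ D₁ ∈ F, D₀ ⊆ D ∧ D₁ ⊆ D ∧ Disjoint D₀ D₁) ∧
    (∀ f : ℕ → Set E, (∀ n, f n ∈ F) → (∀ n, f (n + 1) ⊆ f n) → (⋂ n, f n).Nonempty)

section C

variable {E : Type u} (Dini : Set E) (sub : Set E → Set E → Set E) (s0 s1 : Set E → Set E)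

/-- hidden set of B before a move of A -/
def hidA (st : Set E × Set E) (m : Move E) : Set E := if m.1 = true then st.1 else st.2

/-- hidden pair of B after a history of even length -/
def stl : List (Move E) → Set E × Set E
  | [] => (Dini, Dini)
  | [_] => (Dini, Dini)
  | _ :: m :: l => (s0 (sub (hidA (stl l) m) m.2), s1 (sub (hidA (stl l) m) m.2))

open Classical in
/-- strategy of B -/
noncomputable def tau : List (Move E) → Move E
  | [] => (true, ∅)
  | m :: l => (decide (sub (hidA (stl Dini sub s0 s1 l) m) m.2 ⊆ m.2),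
      s0 (sub (hidA (stl Dini sub s0 s1 l) m) m.2))

end C

theorem X_antitone {E : Type u} (p : ℕ → Move E) : Antitone (X p) := by
  apply antitone_nat_of_succ_le
  intro n
  show (if (p (n + 1)).1 = true then X p n ∩ (p n).2 else X p n \ (p n).2) ⊆ _
  split
  · exact Set.inter_subset_left
  · exact Set.sdiff_subset

theorem BWins_of_splitFamily {E : Type u} (F : Set (Set E)) (hF : IsSplitFamily F) :
    BWins E := by
  classical
  obtain ⟨⟨Dini, hDini⟩, h1, h2, h3⟩ := hF
  choose! sub hsubF hsub using h1
  choose! s0 hs0F s1 hs1F hs0 hs1 hdisj using h2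
  refine ⟨tau Dini sub s0 s1, ?_⟩
  intro p hp
  let D : ℕ → Set E := fun k => hidA (stl Dini sub s0 s1 (hist p (2 * k))) (p (2 * k))
  let D' : ℕ → Set E := fun k => sub (D k) (p (2 * k)).2
  have hp1 : ∀ k, p (2 * k + 1) = (decide (D' k ⊆ (p (2 * k)).2), s0 (D' k)) := by
    intro k
    rw [hp (2 * k + 1) (odd_two_mul_add_one k)]
    rfl
  have hst : ∀ k, stl Dini sub s0 s1 (hist p (2 * (k + 1))) = (s0 (D' k), s1 (D' k)) := by
    intro k
    rfl
  have hDs : ∀ k, D (k + 1) = if (p (2 * (k + 1))).1 = true then s0 (D' k) else s1 (D' k) := by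
    intro k
    show hidA (stl Dini sub s0 s1 (hist p (2 * (k + 1)))) (p (2 * (k + 1))) = _
    rw [hst]
    rfl
  have hDF : ∀ k, D k ∈ F := by
    intro k
    induction k with
    | zero =>
      show (if (p (2 * 0)).1 = true then Dini else Dini) ∈ F
      rw [ite_self]
      exact hDini
    | succ k ih =>
      rw [hDs]
      have := hsubF (D k) ih (p (2 * k)).2
      split
      · exact hs0F _ this
      · exact hs1F _ this
  have hD'F : ∀ k, D' k ∈ F := fun k => hsubF (D k) (hDF k) (p (2 * k)).2
  have hD'D : ∀ k, D' k ⊆ D k := by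
    intro k
    rcases hsub (D k) (hDF k) (p (2 * k)).2 with h | h
    · exact h.trans Set.inter_subset_left
    · exact h.trans Set.sdiff_subset
  have hDD' : ∀ k, D (k + 1) ⊆ D' k := by
    intro k
    rw [hDs]
    split
    · exact hs0 _ (hD'F k)
    · exact hs1 _ (hD'F k)
  have hinv : ∀ k, D k ⊆ X p (2 * k) := by
    intro k
    induction k with
    | zero => exact Set.subset_univ _
    | succ k ih =>
      have e1 : X p (2 * k + 1) = if (p (2 * k + 1)).1 = true then X p (2 * k) ∩ (p (2 * k)).2
        else X p (2 * k) \ (p (2 * k)).2 := rfl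
      have i1 : D' k ⊆ X p (2 * k + 1) := by
        rw [e1, hp1]
        by_cases h : D' k ⊆ (p (2 * k)).2
        · simp only [h, decide_true, if_true]
          exact Set.subset_inter ((hD'D k).trans ih) h
        · simp only [h, decide_false, Bool.false_eq_true, if_false]
          rcases hsub (D k) (hDF k) (p (2 * k)).2 with h' | h'
          · exact absurd (h'.trans Set.inter_subset_right) h
          · exact h'.trans (Set.sdiff_subset_sdiff_left ih)
      have e2 : X p (2 * (k + 1)) = if (p (2 * (k + 1))).1 = true then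
        X p (2 * k + 1) ∩ (p (2 * k + 1)).2 else X p (2 * k + 1) \ (p (2 * k + 1)).2 := rfl
      rw [e2, hDs, hp1]
      split
      · exact Set.subset_inter ((hs0 _ (hD'F k)).trans i1) le_rfl
      · intro x hx
        refine ⟨i1 (hs1 _ (hD'F k) hx), ?_⟩
        intro hx0
        exact Set.disjoint_left.1 (hdisj _ (hD'F k)) hx0 hx
  obtain ⟨x, hx⟩ := h3 D hDF (fun k => (hDD' k).trans (hD'D k))
  refine ⟨x, Set.mem_iInter.2 fun n => ?_⟩
  have h4 : x ∈ X p (2 * (n + 1)) := hinv (n + 1) (Set.mem_iInter.1 hx (n + 1))
  exact X_antitone p (by omega) h4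

/-- **Main theorem.** Player A has no winning strategy in `G(E)` for any uncountable set `E`.
If `E` is uncountable and `|E| ≤ 2^ℵ₀`, then player B has no winning strategy either, so the
game `G(E)` is undetermined.  (The last clause concerns sets with `|E| > 2^ℵ₀`: B has a winning
strategy if `E` carries a family as in `IsSplitFamily`.) -/
theorem result : ∀ E : Type u, Uncountable E →
    ¬ AWins E ∧ (#E ≤ 𝔠 → ¬ BWins E) ∧
      ((∃ F : Set (Set E), IsSplitFamily F) → BWins E) :=
  fun E _ => ⟨not_AWins E, not_BWins E, fun ⟨F, hF⟩ => BWins_of_splitFamily F hF⟩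

end Pool.Agent.Results.MP_c086f7_lc.Undetermined
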